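import Pool.Agent.R425.D.Thm
import Pool.Agent.Y65.Sham.Sham
import Pool.Agent.Y667.BKK.Main
import Pool.Agent.T2H40.BK.Main

/-!
# Abel–Jacobi maps over Galois 2-extensions, and of the abelian varieties `E ⊗ M`

Let `E` be an elliptic curve over `ℚ` with trivial 2-Selmer group over `ℚ`, for example `X_0(11)`, and
let `K` be any Galois extension of `ℚ` of degree a power of two, which need not be abelian, ramified
only at primes `l` of good reduction such that the number of the points of `E` over `ℤ/l` is odd, in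
which the primes dividing `2 Δ` split completely (and totally real if `Δ > 0`). Then the 2-adic
Abel–Jacobi map is an isomorphism onto the Bloch–Kato Selmer group for the following polarized motives of
weight `-1`:

* `M = h¹(E)(1)` over `K`;
* `M = h¹(A)(1)` over `ℚ`, where `A = E ⊗ L` is the abelian variety over `ℚ` given by `E` and a lattice `L` of
  any rank with any action of `Gal(K/ℚ)` (the Artin twists of `E` by the rational representations of
  `Gal(K/ℚ)`, whatever the Schur indices; for `L = ℤ[Gal(K/ℚ)]` it is the restriction of scalars of `E`).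

Nothing is assumed on the Tate–Shafarevich groups of `E` over `K` or of `A`.
-/

set_option autoImplicit false

open IsDedekindDomain NumberField WeierstrassCurve

open scoped Classical

namespace Pool.Agent.Results.MP_009fd8_ag.TwoExtensionsArtin

open Pool.Agent.TH841.SH.D (Gal)

/-- The 2-Selmer group of `W` over `ℚ` is trivial: `W(ℚ)` is finite of odd order and `Ш(W/ℚ)` has no
element of order two. -/
def TrivialTwoSelmer (W : WeierstrassCurve ℤ) : Prop :=
  Finite (W.map (Int.castRingHom ℚ)).toAffine.Point ∧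
  Odd (Nat.card (W.map (Int.castRingHom ℚ)).toAffine.Point) ∧
  ∀ s : Pool.Agent.TH841.NF.D.Sha (W.map (Int.castRingHom ℚ)), 2 • s = 0 → s = 0

/-- The number of the points of `W` over `ℤ/l`, with the point at infinity. -/
noncomputable def pointCount (W : WeierstrassCurve ℤ) (l : ℕ) : ℕ :=
  Nat.card {P : ZMod l × ZMod l //
    (W.map (Int.castRingHom (ZMod l))).toAffine.Equation P.1 P.2} + 1

/-- `K` is a Galois extension of `ℚ` of degree a power of two, ramified only at primes `l ∤ 2 Δ` such
that the number of the points of `W` over `ℤ/l` is odd; the prime ideals containing `2 Δ` have residue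
degree one (and, `K` being Galois and unramified at them, the primes dividing `2 Δ` split completely); and
if `Δ > 0` then `K` is totally real. -/
structure IsTwoExtension (W : WeierstrassCurve ℤ) (K : Type) [Field K] [NumberField K] : Prop where
  galois : IsGalois ℚ K
  degree : ∃ j, Module.finrank ℚ K = 2 ^ j
  ramified : ∀ l : ℕ, l.Prime → (l : ℤ) ∣ NumberField.discr K →
    ¬ (l : ℤ) ∣ 2 * W.Δ ∧ Odd (pointCount W l)
  split : ∀ v : HeightOneSpectrum (𝓞 K), ((2 * W.Δ : ℤ) : 𝓞 K) ∈ v.asIdeal →
    (Ideal.absNorm v.asIdeal).Prime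
  real : 0 < W.Δ → ∀ v : InfinitePlace K, v.IsReal

/-- `E(K) ⊗ ℚ₂` and the Bloch–Kato Selmer group `H¹_f(K, V₂ E)` are zero; so the 2-adic Abel–Jacobi map of
`M = h¹(E)(1)` over `K` is an isomorphism onto the Bloch–Kato Selmer group. -/
def AJ (K : Type) [Field K] [NumberField K] (E : WeierstrassCurve K) : Prop :=
  (∀ x : TensorProduct ℤ E.toAffine.Point ℚ_[2], x = 0) ∧ ∀ x : Pool.Agent.Y667.BKK.H1f E, x = 0

/-- For the abelian variety `A = W ⊗ L` over `ℚ`, `L = ℤ ^ g` with the action `R` of the Galois group of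
`ℚ`, the groups `A(ℚ) ⊗ ℚ₂` and `H¹_f(ℚ, V₂ A)` are zero; so the 2-adic Abel–Jacobi map of
`M = h¹(A)(1)` over `ℚ` is an isomorphism onto the Bloch–Kato Selmer group. -/
def AJForm (W : WeierstrassCurve ℤ) {g : ℕ} (R : Gal ℚ →* GL (Fin g) ℤ) : Prop :=
  (∀ x : TensorProduct ℤ (Pool.Agent.Y702.A.ptsA W R) ℚ_[2], x = 0) ∧
    ∀ x : Pool.Agent.T2H40.BK.H1f W R, x = 0

/-- The curve `y² = x³ - 13392 x - 1080432`, a short equation of `X_0(11)`. -/
def X11 : WeierstrassCurve ℤ := ⟨0, 0, 0, -13392, -1080432⟩

/-- the extension in the sense of the library -/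
lemma ext_of {W : WeierstrassCurve ℤ} {K : Type} [Field K] [NumberField K]
    (h : IsTwoExtension W K) : Pool.Agent.R425.D.TwoExt (fun _ : Fin 1 => W) K := by
  have hprod : (2 * ∏ _i : Fin 1, W.Δ : ℤ) = 2 * W.Δ := by simp
  refine ⟨h.galois, h.degree, fun l hl hd => ?_, fun v hv => ?_, fun _ => h.real⟩
  · obtain ⟨h1, h2⟩ := h.ramified l hl hd
    rw [hprod]
    exact ⟨h1, fun _ => h2⟩
  · rw [hprod] at hv
    exact h.split v hv

/-- a finite group in which two acts injectively has odd order -/
lemma odd_of {A : Type} [AddCommGroup A] [Finite A] (h : ∀ P : A, 2 • P = 0 → P = 0) :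
    Odd (Nat.card A) := by
  rw [← Nat.not_even_iff_odd]
  intro he
  obtain ⟨x, hx⟩ := exists_prime_addOrderOf_dvd_card' (G := A) 2 he.two_dvd
  have h1 : 2 • x = 0 := by
    rw [← hx]
    exact addOrderOf_nsmul_eq_zero x
  rw [h x h1, addOrderOf_zero] at hx
  exact absurd hx (by norm_num)

/-- **Theorem.** (1) Let `W` be an elliptic curve over `ℚ` with trivial 2-Selmer group over `ℚ`, and `K` a
Galois extension of `ℚ` of degree a power of two, unramified at the primes dividing `2 Δ`, which split
completely, ramified only at primes `l` modulo which the number of the points of `W` is odd, and totally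
real if `Δ > 0`. Then the 2-adic Abel–Jacobi map is an isomorphism onto the Bloch–Kato Selmer group for
`h¹(W)(1)` over `K`, and for `h¹(A)(1)` over `ℚ` for all the abelian varieties `A = W ⊗ L`, where `L` is a
lattice of any rank with an action of the Galois group of `ℚ` which is trivial on the automorphisms that
are trivial on `K`. (2) `X_0(11)` satisfies the hypothesis. -/
theorem result :
    (∀ W : WeierstrassCurve ℤ, W.Δ ≠ 0 → TrivialTwoSelmer W →
      ∀ (K : Type) [Field K] [NumberField K], IsTwoExtension W K →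
        AJ K (W.map (Int.castRingHom K)) ∧
        ∀ (g : ℕ) (R : Gal ℚ →* GL (Fin g) ℤ) (e : K →+* AlgebraicClosure ℚ),
          (∀ σ : Gal ℚ, (∀ x : K, σ (e x) = e x) → R σ = 1) → AJForm W R) ∧
    (X11.Δ ≠ 0 ∧ TrivialTwoSelmer X11) := by
  refine ⟨fun W hΔ hT K _ _ hK => ?_, Pool.Agent.R425.D.disc11, Pool.Agent.R425.D.sel11s⟩
  obtain ⟨h1, h2, h3⟩ := (ext_of hK).sel (fun _ => hΔ) (fun _ => hT) 0
  have := hK.galois
  obtain ⟨n, hn⟩ := hK.degree
  have h4 : Odd (Nat.card (W.map (Int.castRingHom K)).toAffine.Point) := odd_of h3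
  refine ⟨⟨Pool.Agent.Y667.BK.tensor_zero, ?_⟩, fun g R e hR => ?_⟩
  · exact Pool.Agent.Y667.BKK.h1f_zero h2 0 fun k x hx => by
      rw [pow_zero, one_smul]
      exact Pool.Agent.Y65.Sham.no_two h1 k x hx
  · obtain ⟨a1, a2, a3⟩ := Pool.Agent.Y65.Sham.s_SHAM W hΔ K n hn h1 h2 h4 g R e hR
    exact ⟨Pool.Agent.Y667.BK.tensor_zero, Pool.Agent.T2H40.BK.h1f_zero a1 a3⟩

end Pool.Agent.Results.MP_009fd8_ag.TwoExtensionsArtin
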